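import Mathlib

set_option autoImplicit false

namespace Pool.Agent.Results.MP_41ff67_pr.No

open MeasureTheory Set Filter Topology Metric
open scoped ENNReal NNReal RealInnerProductSpace

abbrev E (d : ℕ) := EuclideanSpace ℝ (Fin d)

variable {d : ℕ}

/-- `f` is an `α`-weight function. -/
def IsWeight (α : ℝ) (f : E d → ℝ) : Prop :=
  ∃ (f0 : E d → ℝ) (L : ℝ≥0), LipschitzOnWith L f0 (sphere 0 1) ∧ (∀ θ ∈ sphere (0 : E d) 1, 0 < f0 θ) ∧
    ∀ z ≠ 0, f z = ‖z‖ ^ α * f0 (‖z‖⁻¹ • z)

/-- The integral of `1/f` along the segment from `a` to `b`, parametrised by `μ`-length. -/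
noncomputable def seg (μ : Seminorm ℝ (E d)) (f : E d → ℝ) (a b : E d) : ℝ≥0∞ :=
  ∫⁻ t in Ioo 0 (μ (b - a)), ENNReal.ofReal (1 / f (a + (t / μ (b - a)) • (b - a)))

/-- The integral of `1/f` along the polygonal path from `a` through the points of `l` to `w`. -/
noncomputable def cost (μ : Seminorm ℝ (E d)) (f : E d → ℝ) : E d → List (E d) → E d → ℝ≥0∞
  | a, [], w => seg μ f a w
  | a, q :: l, w => seg μ f a q + cost μ f q l w

noncomputable def D (μ : Seminorm ℝ (E d)) (f : E d → ℝ) (z w : E d) : ℝ≥0∞ := ⨅ l, cost μ f z l w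

/-- Near each boundary point, `K` is the region below the graph of a Lipschitz function over the
hyperplane orthogonal to a unit vector `v`. -/
def LipBdry (K : Set (E d)) : Prop :=
  ∀ p ∈ frontier K, ∃ (v : E d) (r : ℝ) (φ : E d → ℝ) (L : ℝ≥0), ‖v‖ = 1 ∧ 0 < r ∧ LipschitzWith L φ ∧
    ∀ z ∈ ball p r, (z ∈ K ↔ ⟪v, z⟫ ≤ φ (z - ⟪v, z⟫ • v))

lemma cov (G : ℝ → ℝ≥0∞) (s : ℝ) {k : ℝ} (hk : 0 ≤ k) :
    ∫⁻ r in Ioo s (s + k), G r = ENNReal.ofReal k * ∫⁻ t in Ioo (0 : ℝ) 1, G (s + k * t) := by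
  rcases hk.eq_or_lt with rfl | hk
  · simp
  have := lintegral_image_eq_lintegral_abs_deriv_mul (s := Ioo (0 : ℝ) 1) (f := fun t => s + k * t)
    (f' := fun _ => k) measurableSet_Ioo
    (fun x _ => by simpa using (((hasDerivAt_id x).const_mul k).const_add s).hasDerivWithinAt)
    (fun x _ y _ h => by simpa [hk.ne'] using h) G
  rw [abs_of_pos hk, lintegral_const_mul' _ _ ENNReal.ofReal_ne_top] at this
  rw [← this]
  congr 2
  ext r
  simp only [mem_Ioo, mem_image]
  refine ⟨fun h => ⟨(r - s) / k, ⟨div_pos (by linarith) hk, (div_lt_one hk).2 (by linarith)⟩,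
    by field_simp; ring⟩, ?_⟩
  rintro ⟨t, h, rfl⟩
  constructor <;> nlinarith [h.1, h.2]

variable (μ : Seminorm ℝ (E d)) (f : E d → ℝ)

lemma seg_eq (a b : E d) : seg μ f a b = ENNReal.ofReal (μ (b - a)) *
    ∫⁻ t in Ioo (0 : ℝ) 1, ENNReal.ofReal (1 / f (a + t • (b - a))) := by
  have := cov (fun t => ENNReal.ofReal (1 / f (a + (t / μ (b - a)) • (b - a)))) 0 (apply_nonneg μ (b - a))
  rw [zero_add] at this
  rw [seg, this]
  rcases (apply_nonneg μ (b - a)).eq_or_lt with h | h
  · simp [← h]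
  · simp [h.ne']

lemma seg_split (a b : E d) {s : ℝ} (h0 : 0 ≤ s) (h1 : s ≤ 1) :
    seg μ f a (a + s • (b - a)) + seg μ f (a + s • (b - a)) b ≤ seg μ f a b := by
  set G := fun t : ℝ => ENNReal.ofReal (1 / f (a + t • (b - a)))
  have e1 : b - (a + s • (b - a)) = (1 - s) • (b - a) := by module
  have e2 : ∀ t : ℝ, a + s • (b - a) + t • (1 - s) • (b - a) = a + (s + (1 - s) * t) • (b - a) := fun t => by
    module
  have c1 := cov G 0 h0
  have c2 := cov G s (sub_nonneg.2 h1)
  simp only [zero_add, add_sub_cancel, G] at c1 c2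
  simp only [seg_eq, add_sub_cancel_left, e1, map_smul_eq_mul, smul_smul, Real.norm_eq_abs,
    abs_of_nonneg h0, abs_of_nonneg (sub_nonneg.2 h1), mul_comm _ s]
  rw [mul_comm s, mul_comm (1 - s), ENNReal.ofReal_mul (apply_nonneg _ _), ENNReal.ofReal_mul (apply_nonneg _ _),
    mul_assoc, mul_assoc, ← c1, ← mul_add]
  simp only [← smul_smul, e2]
  rw [← c2, ← lintegral_union measurableSet_Ioo (by
    rw [Set.disjoint_left]; exact fun x h k => lt_asymm h.2 k.1)]
  gcongr
  exact union_subset (Ioo_subset_Ioo_right h1) (Ioo_subset_Ioo_left h0)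

lemma seg_bd {a b : E d} {m M : ℝ} (h : ∀ t ∈ Ioo (0 : ℝ) 1, 1 / f (a + t • (b - a)) ∈ Icc m M) :
    ENNReal.ofReal (μ (b - a) * m) ≤ seg μ f a b ∧ seg μ f a b ≤ ENNReal.ofReal (μ (b - a) * M) := by
  rw [seg_eq, ENNReal.ofReal_mul (apply_nonneg _ _), ENNReal.ofReal_mul (apply_nonneg _ _)]
  have c : ∀ x : ℝ≥0∞, ∫⁻ _ in Ioo (0 : ℝ) 1, x = x := fun x => by simp
  constructor
  · gcongr
    exact (c _).symm.trans_le (setLIntegral_mono' measurableSet_Ioo fun t ht =>
      ENNReal.ofReal_le_ofReal (h t ht).1)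
  · gcongr
    exact (setLIntegral_mono' measurableSet_Ioo fun t ht =>
      ENNReal.ofReal_le_ofReal (h t ht).2).trans_eq (c _)

lemma D_step (z a b : E d) : D μ f z b ≤ D μ f z a + seg μ f a b := by
  have : ∀ l z, cost μ f z (l ++ [a]) b = cost μ f z l a + seg μ f a b := fun l => by
    induction l with
    | nil => intro z; rfl
    | cons q l ih => intro z; simp [cost, ih, add_assoc]
  rw [D, D, ENNReal.iInf_add]
  exact le_iInf fun l => (iInf_le _ _).trans_eq (this l z)

variable {f}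

lemma D_smul {α : ℝ} (hf : IsWeight α f) {c : ℝ} (hc : 0 < c) (z : E d) :
    D μ f 0 (c • z) ≤ ENNReal.ofReal (c ^ (1 - α)) * D μ f 0 z := by
  obtain ⟨f0, L, -, -, h⟩ := hf
  have h1 : ∀ a b, seg μ f (c • a) (c • b) = ENNReal.ofReal (c ^ (1 - α)) * seg μ f a b := fun a b => by
    by_cases hab : b - a = 0
    · simp [seg, ← smul_sub, hab]
    have : ∀ᵐ t : ℝ, a + t • (b - a) ≠ 0 := by
      refine (Set.Subsingleton.measure_zero (fun s hs t ht => ?_) _)
      simp only [ne_eq, not_not, mem_compl_iff, mem_ofPred_eq] at hs ht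
      exact smul_left_injective ℝ hab (add_left_cancel (hs.trans ht.symm))
    rw [seg_eq, seg_eq, ← smul_sub, map_smul_eq_mul, Real.norm_eq_abs, abs_of_pos hc,
      ENNReal.ofReal_mul hc.le, Real.rpow_sub hc, Real.rpow_one, div_eq_mul_inv, ENNReal.ofReal_mul hc.le,
      mul_assoc, mul_assoc, mul_left_comm (ENNReal.ofReal (c ^ α)⁻¹),
      ← lintegral_const_mul' (ENNReal.ofReal (c ^ α)⁻¹) _ ENNReal.ofReal_ne_top]
    congr 2
    refine lintegral_congr_ae (ae_restrict_of_ae (this.mono fun t ht => ?_))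
    simp only
    rw [← ENNReal.ofReal_mul (by positivity), smul_comm t c, ← smul_add, h _ ht, h _ (smul_ne_zero hc.ne' ht),
      norm_smul, Real.norm_eq_abs, abs_of_pos hc, Real.mul_rpow hc.le (norm_nonneg _), smul_smul,
      show (c * ‖a + t • (b - a)‖)⁻¹ * c = ‖a + t • (b - a)‖⁻¹ by field_simp]
    congr 1; ring
  have h2 : ∀ l a, cost μ f (c • a) (l.map (c • ·)) (c • z) = ENNReal.ofReal (c ^ (1 - α)) * cost μ f a l z :=
    fun l => by
      induction l with
      | nil => exact fun a => h1 a z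
      | cons q l ih => intro a; simp [cost, ih, h1, mul_add]
  rw [D, D, ENNReal.mul_iInf_of_ne (by simp; positivity) ENNReal.ofReal_ne_top]
  exact le_iInf fun l => (iInf_le _ _).trans_eq (by simpa using h2 l 0)

lemma D_eq {α : ℝ} (hα : α < 1) (hf : IsWeight α f) (p : E d → ℝ)
    (hp : ∀ (c : ℝ) z, 0 ≤ c → p (c • z) = c * p z) (h : ∀ z, D μ f 0 z ≤ 1 ↔ p z ≤ 1) (z : E d)
    (hz : 0 ≤ p z) : D μ f 0 z = ENNReal.ofReal (p z ^ (1 - α)) := by
  have hβ : 0 < 1 - α := by linarith
  have lim : ∀ x : ℝ, Tendsto (fun c : ℝ => ENNReal.ofReal (c ^ (1 - α))) (𝓝 x)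
      (𝓝 (ENNReal.ofReal (x ^ (1 - α)))) := fun x =>
    ENNReal.tendsto_ofReal ((Real.continuousAt_rpow_const x _ (Or.inr hβ.le)))
  refine le_antisymm (ge_of_tendsto ((lim _).mono_left (nhdsWithin_le_nhds (s := Ioi (p z))))
    (eventually_nhdsWithin_of_forall fun c hc => ?_)) ?_
  · have c0 : 0 < c := hz.trans_lt hc
    have := D_smul μ hf c0 (c⁻¹ • z)
    rw [smul_inv_smul₀ c0.ne'] at this
    refine this.trans (mul_le_of_le_one_right' ((h _).2 ?_))
    rw [hp _ _ (by positivity), inv_mul_le_iff₀ c0, mul_one]; exact le_of_lt hc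
  rcases hz.eq_or_lt with e | e
  · simp [← e, hβ.ne']
  refine le_of_tendsto ((lim _).mono_left (nhdsWithin_le_nhds (s := Iio (p z)))) ?_
  filter_upwards [Ioo_mem_nhdsLT e] with c hc
  have h1 : 1 < D μ f 0 (c⁻¹ • z) := not_le.1 fun k => by
    rw [h, hp _ _ (inv_pos.2 hc.1).le, inv_mul_le_iff₀ hc.1] at k; linarith [hc.2]
  have h2 := mul_le_mul_right (h1.le.trans (D_smul μ hf (inv_pos.2 hc.1) z)) (ENNReal.ofReal (c ^ (1 - α)))
  rwa [mul_one, ← mul_assoc, ← ENNReal.ofReal_mul (Real.rpow_nonneg hc.1.le _),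
    ← Real.mul_rpow hc.1.le (inv_pos.2 hc.1).le, mul_inv_cancel₀ hc.1.ne', Real.one_rpow,
    ENNReal.ofReal_one, one_mul] at h2

lemma bump (u : E d → ℝ) (u0 : ∀ z, 0 ≤ u z) (hu : ∀ z, D μ f 0 z = ENNReal.ofReal (u z)) (z : E d)
    {δ η : ℝ} (hδ : 0 < δ) (hη : 0 < η) (hz : δ ≤ μ z) (m M : ℝ)
    (h1 : ∀ a, μ (a - z) ≤ 2 * δ → 1 / f a ∈ Icc m M)
    (h2 : ∀ a b, μ (a - z) ≤ 2 * δ → μ (b - z) ≤ 2 * δ → u b - u a ≤ μ (b - a) * (m - η)) : False := by
  set g := fun a => u a + η * max 0 (δ - μ (a - z)) with hg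
  have tri : ∀ a b, μ (b - z) ≤ μ (b - a) + μ (a - z) := fun a b => by
    simpa using map_add_le_add μ (b - a) (a - z)
  have s1 : ∀ a b, μ (b - a) ≤ δ → ENNReal.ofReal (g b) ≤ ENNReal.ofReal (g a) + seg μ f a b := by
    intro a b hab
    have ga : 0 ≤ g a := add_nonneg (u0 a) (by positivity)
    by_cases hb : δ ≤ μ (b - z)
    · have e : g b = u b := by simp [hg, hb]
      rw [e, ← hu]
      refine (D_step μ f 0 a b).trans ?_
      rw [hu]; gcongr; exact le_add_of_nonneg_right (by positivity)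
    · have k1 := tri b a
      rw [map_sub_rev μ a b] at k1
      refine le_trans ?_ (add_le_add le_rfl (seg_bd μ f (m := m) (M := M) fun t ht => h1 _ ?_).1)
      · have k2 := h2 a b (by linarith) (by linarith)
        have k3 : max 0 (δ - μ (b - z)) ≤ max 0 (δ - μ (a - z)) + μ (b - a) :=
          max_le (by positivity) (by linarith [le_max_right 0 (δ - μ (a - z))])
        refine (ENNReal.ofReal_le_ofReal ?_).trans ENNReal.ofReal_add_le
        simp only [hg]; nlinarith
      · have := tri b (a + t • (b - a))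
        rw [show a + t • (b - a) - b = (t - 1) • (b - a) by module, map_smul_eq_mul, Real.norm_eq_abs,
          abs_of_nonpos (by linarith [ht.2])] at this
        nlinarith [ht.1, apply_nonneg μ (b - a)]
  have s2 : ∀ (n : ℕ) a b, μ (b - a) ≤ (n + 1) * δ →
      ENNReal.ofReal (g b) ≤ ENNReal.ofReal (g a) + seg μ f a b := by
    intro n
    induction n with
    | zero => intro a b h; exact s1 a b (by simpa using h)
    | succ n ih =>
      intro a b h
      have n2 : (0 : ℝ) < n + 2 := by positivity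
      have t1 : 1 / ((n : ℝ) + 2) ≤ 1 := (div_le_one n2).2 (by linarith)
      push_cast at h
      refine (ih (a + (1 / ((n : ℝ) + 2)) • (b - a)) b ?_).trans ((add_le_add (s1 a _ ?_) le_rfl).trans ?_)
      · rw [show b - (a + (1 / ((n : ℝ) + 2)) • (b - a)) = (1 - 1 / ((n : ℝ) + 2)) • (b - a) by module,
          map_smul_eq_mul, Real.norm_eq_abs, abs_of_nonneg (by linarith),
          show 1 - 1 / ((n : ℝ) + 2) = (n + 1) / (n + 2) by field_simp; ring, div_mul_eq_mul_div,
          div_le_iff₀ n2]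
        nlinarith
      · rw [add_sub_cancel_left, map_smul_eq_mul, Real.norm_eq_abs, abs_of_pos (by positivity),
          one_div_mul_eq_div, div_le_iff₀ n2]
        linarith
      · rw [add_assoc]; gcongr; exact seg_split μ f a b (by positivity) t1
  have s3 : ∀ l a, ENNReal.ofReal (g z) ≤ ENNReal.ofReal (g a) + cost μ f a l z := fun l => by
    have s : ∀ a b, ENNReal.ofReal (g b) ≤ ENNReal.ofReal (g a) + seg μ f a b := fun a b => by
      obtain ⟨n, hn⟩ := exists_nat_ge (μ (b - a) / δ)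
      exact s2 n a b (by rw [div_le_iff₀ hδ] at hn; nlinarith)
    induction l with
    | nil => exact fun a => s a z
    | cons q l ih => intro a; rw [cost, ← add_assoc]; exact (ih q).trans (add_le_add (s a q) le_rfl)
  have g0 : ENNReal.ofReal (g 0) = 0 := by
    have : D μ f 0 0 = 0 := le_antisymm ((iInf_le _ []).trans_eq (by simp [cost, seg])) zero_le
    simpa [hg, hz, this] using (hu 0).symm
  have s4 : ENNReal.ofReal (g z) ≤ ENNReal.ofReal (u z) := by
    rw [← hu]; exact le_iInf fun l => by simpa [g0] using s3 l 0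
  rw [ENNReal.ofReal_le_ofReal_iff (u0 z)] at s4
  simp only [hg, sub_self, map_zero, sub_zero, max_eq_right hδ.le] at s4
  nlinarith

/-- The box with half-sides `w i`. -/
def box (w : Fin d → ℝ) : Set (E d) := {z | ∀ i, |z i| ≤ w i}

noncomputable def gau (w : Fin d → ℝ) (z : E d) : ℝ := ‖fun i => z i / w i‖

variable {w : Fin d → ℝ}

lemma gau_le (hw : ∀ i, 0 < w i) {z : E d} {t : ℝ} (ht : 0 ≤ t) : gau w z ≤ t ↔ ∀ i, |z i| ≤ t * w i := by
  rw [gau, pi_norm_le_iff_of_nonneg ht]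
  exact forall_congr' fun i => by rw [Real.norm_eq_abs, abs_div, abs_of_pos (hw i), div_le_iff₀ (hw i)]

lemma gau_smul (c : ℝ) (z : E d) (hc : 0 ≤ c) : gau w (c • z) = c * gau w z := by
  rw [gau, gau, ← Real.norm_of_nonneg hc, ← norm_smul, Real.norm_of_nonneg hc]
  congr 1; funext i; simp [mul_div_assoc]

lemma box_eq (hw : ∀ i, 0 < w i) : box w = {z | gau w z ≤ 1} := by
  ext z; simp [box, gau_le hw zero_le_one]

lemma gau_nn (z : E d) : 0 ≤ gau w z := norm_nonneg _

lemma gau_c : Continuous (gau w) := by unfold gau; fun_prop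

lemma fr_box (hw : ∀ i, 0 < w i) : frontier (box w) = {z | gau w z = 1} := by
  rw [box_eq hw]
  refine (frontier_le_subset_eq gau_c continuous_const).antisymm fun z hz => ?_
  rw [frontier_eq_closure_inter_closure]
  refine ⟨subset_closure (le_of_eq hz), mem_closure_of_tendsto (b := 𝓝[>] (1 : ℝ)) (f := fun c : ℝ => c • z)
    (tendsto_nhdsWithin_of_tendsto_nhds (Continuous.tendsto' (by fun_prop) _ _ (one_smul _ _)))
    (eventually_nhdsWithin_of_forall fun c hc => ?_)⟩
  have : 1 < c := hc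
  simp only [mem_compl_iff, mem_ofPred_eq, gau_smul c z (by linarith), show gau w z = 1 from hz]
  linarith

lemma lip_box (hd : 0 < d) (hw : ∀ i, 0 < w i) : LipBdry (box w) := by
  intro p _
  have : Nonempty (Fin d) := ⟨⟨0, hd⟩⟩
  set σ : Fin d → ℝ := fun i => if 0 ≤ p i then 1 else -1
  have σ2 : ∀ i, σ i * σ i = 1 := fun i => by simp only [σ]; split_ifs <;> norm_num
  have s0 : 0 < √(d : ℝ) := Real.sqrt_pos.2 (by exact_mod_cast hd)
  obtain ⟨i0, h0⟩ := Finite.exists_min w
  have co : ∀ (x y : E d) i, |x i - y i| ≤ dist x y := fun x y i => by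
    simpa [Real.dist_eq] using PiLp.dist_apply_le x y i
  refine ⟨WithLp.toLp 2 fun i => σ i / √(d : ℝ), w i0,
    fun y => Finset.univ.inf' Finset.univ_nonempty fun i => √(d : ℝ) * (w i - σ i * y i),
    Real.toNNReal √(d : ℝ), ?_, hw i0, LipschitzWith.of_le_add_mul _ fun x y => ?_, fun z hz => ?_⟩
  · rw [EuclideanSpace.norm_eq, Real.sqrt_eq_one]
    simp only [Real.norm_eq_abs, sq_abs, div_pow, sq (σ _), σ2, Real.sq_sqrt d.cast_nonneg]
    simp [hd.ne']
  · obtain ⟨i, -, hi⟩ := Finset.exists_mem_eq_inf' Finset.univ_nonempty fun i => √(d : ℝ) * (w i - σ i * y i)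
    refine (Finset.inf'_le _ (Finset.mem_univ i)).trans ?_
    have := abs_le.1 (co x y i)
    have : σ i * (y i - x i) ≤ dist x y := by simp only [σ]; split_ifs <;> linarith
    rw [hi, Real.coe_toNNReal _ s0.le]; nlinarith
  · rw [Finset.le_inf'_iff]
    refine forall_congr' fun i => ?_
    generalize ⟪WithLp.toLp 2 fun i => σ i / √(d : ℝ), z⟫ = η
    have e : √(d : ℝ) * (w i - σ i * (z - η • WithLp.toLp 2 fun i => σ i / √(d : ℝ) : E d) i)
        = η * (σ i * σ i) + √(d : ℝ) * (w i - σ i * z i) := by simp; field_simp; ring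
    have := abs_lt.1 ((co z p i).trans_lt (lt_of_lt_of_le hz (h0 i)))
    rw [e, σ2, mul_one, le_add_iff_nonneg_right, mul_nonneg_iff_of_pos_left s0, abs_le]
    simp only [σ, Finset.mem_univ, true_imp_iff]
    split_ifs <;> constructor <;> intro h <;> first | constructor <;> linarith | linarith [h.1, h.2]

theorem result (d : ℕ) (hd : 2 ≤ d) (μ : Seminorm ℝ (E d)) (hμ : ∀ v, μ v = 0 → v = 0) :
    ∃ w : Fin d → ℝ, (∀ i, 0 < w i) ∧ IsCompact (box w) ∧ LipBdry (box w) ∧ box w ∈ 𝓝 (0 : E d) ∧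
      (∀ v : E d, v ≠ 0 → ∃! t : ℝ, 0 ≤ t ∧ t • v ∈ frontier (box w)) ∧
      ∀ (α : ℝ) (f : E d → ℝ), α < 1 → IsWeight α f → box w ≠ {z | D μ f 0 z ≤ 1} := by
  obtain ⟨n, rfl⟩ : ∃ n, d = n + 2 := ⟨d - 2, by omega⟩
  have μp : ∀ v ≠ 0, 0 < μ v := fun v hv => (apply_nonneg μ v).lt_of_ne fun h => hv (hμ v h.symm)
  obtain ⟨C, C0, hC⟩ : ∃ C, 0 < C ∧ ∀ v, ‖v‖ ≤ C * μ v := by
    obtain ⟨x, hx, h⟩ := (isCompact_sphere (0 : E (n + 2)) 1).exists_isMinOn (f := μ)
      (NormedSpace.sphere_nonempty.2 zero_le_one) (μ.convexOn.locallyLipschitz.continuous.continuousOn)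
    have x0 := μp x (by rintro rfl; simp at hx)
    refine ⟨(μ x)⁻¹, by positivity, fun v => ?_⟩
    rcases eq_or_ne v 0 with rfl | hv
    · simp
    have v0 := norm_pos_iff.2 hv
    have : μ x ≤ μ (‖v‖⁻¹ • v) := h (by simp [norm_smul, v0.ne'])
    rw [map_smul_eq_mul, norm_inv, norm_norm, le_inv_mul_iff₀ v0] at this
    rwa [le_inv_mul_iff₀ x0, mul_comm]
  set e1 : E (n + 2) := EuclideanSpace.single 1 1
  have m0 : 0 < μ e1 := μp _ (by simp [e1])
  set b := 1 / (32 * μ e1 * C) with hb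
  have b0 : 0 < b := by positivity
  set w : Fin (n + 2) → ℝ := fun i => if i = 1 then b else 1
  have hw : ∀ i, 0 < w i := fun i => by simp only [w]; split_ifs <;> positivity
  refine ⟨w, hw, ?_, lip_box (by omega) hw, ?_, fun v hv => ?_, fun α f hα hf hK => ?_⟩
  · convert (isCompact_univ_pi fun i => isCompact_Icc (a := -w i) (b := w i)).image (PiLp.continuous_toLp 2 _)
    ext z
    exact ⟨fun h => ⟨z.ofLp, fun i _ => abs_le.1 (h i), rfl⟩, fun ⟨y, h, e⟩ i => e ▸ abs_le.2 (h i trivial)⟩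
  · rw [box_eq hw]
    exact gau_c.continuousAt.eventually_le_const (by simp [gau])
  · have : 0 < gau w v := by
      refine not_le.1 fun h => hv ?_
      ext i; simpa using (gau_le hw le_rfl).1 h i
    simp only [fr_box hw, mem_ofPred_eq]
    refine ⟨(gau w v)⁻¹, ⟨by positivity, by rw [gau_smul _ _ (by positivity), inv_mul_cancel₀ this.ne']⟩,
      fun t ht => eq_inv_of_mul_eq_one_left (by rw [← gau_smul _ _ ht.1, ht.2])⟩
  have hD := fun z => D_eq μ hα hf (gau w) gau_smul
    (fun z => by rw [box_eq hw] at hK; exact (Set.ext_iff.1 hK z).symm) z (norm_nonneg _)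
  set β := 1 - α
  have hβ : 0 < β := sub_pos.2 hα
  set c : E (n + 2) := EuclideanSpace.single 0 1 + b • e1
  have c0 : c 0 = 1 := by simp [c, e1]
  have c1 : c 1 = b := by simp [c, e1]
  have c2 : ∀ i : Fin n, c i.succ.succ = 0 := fun i => by
    have : i.succ.succ ≠ 1 := fun h => by simpa using congrArg Fin.val h
    simp [c, e1, this]
  have cn : c ≠ 0 := fun h => by simp [h] at c0
  obtain ⟨f0, L, h1, h2, h3⟩ := hf
  have sp : ∀ z : E (n + 2), z ≠ 0 → ‖z‖⁻¹ • z ∈ sphere (0 : E (n + 2)) 1 := fun z hz => by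
    simp [norm_smul, hz]
  have fp : 0 < f c := by rw [h3 c cn]; exact mul_pos (Real.rpow_pos_of_pos (norm_pos_iff.2 cn) _) (h2 _ (sp c cn))
  have fc : ContinuousAt (fun z => 1 / f z) c := by
    refine continuousAt_const.div (ContinuousAt.congr (f := fun z => ‖z‖ ^ α * f0 (‖z‖⁻¹ • z)) ?_
      ((isOpen_ne.eventually_mem cn).mono fun z hz => (h3 z hz).symm)) fp.ne'
    exact (continuous_norm.continuousAt.rpow_const (Or.inl (norm_ne_zero_iff.2 cn))).mul
      ((h1.continuousOn.comp (s := {z | z ≠ 0}) ((continuous_norm.continuousOn.inv₀ fun z hz =>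
        norm_ne_zero_iff.2 hz).smul continuousOn_id) sp).continuousAt (isOpen_ne.mem_nhds cn))
  set M := 1 / f c
  have M0 : 0 < M := by positivity
  obtain ⟨s, hs, hL⟩ := (Real.hasStrictDerivAt_rpow_const_of_ne one_ne_zero β).hasStrictFDerivAt
    |>.exists_lipschitzOnWith_of_nnnorm_lt (Real.toNNReal (2 * β)) (by
      rw [← NNReal.coe_lt_coe, Real.coe_toNNReal _ (by positivity)]; simp [abs_of_pos hβ, hβ])
  have ca : ∀ i, ContinuousAt (fun z : E (n + 2) => z i) c := fun i => by fun_prop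
  obtain ⟨r, r0, hr⟩ := Metric.eventually_nhds_iff_ball.1 ((fc.eventually (Icc_mem_nhds (a := M / 2) (b := 2 * M)
    (by linarith) (by linarith))).and (((ca 0).eventually (c0 ▸ hs)).and
    (((ca 0).eventually (lt_mem_nhds (a := 1 / 2) (by simp only [c0]; norm_num))).and
    (((ca 1).eventually (lt_mem_nhds (a := 0) (by simpa only [c1] using b0))).and (eventually_all.2 fun i : Fin n =>
      (ca i.succ.succ).abs.eventually (gt_mem_nhds (a := 1 / 2) (by simp [c2])))))))
  set t := min (r / 2) b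
  have t0 : 0 < t := lt_min (by positivity) b0
  have t1 : t < r := (min_le_left _ _).trans_lt (by linarith)
  have t2 : t / b ≤ 1 := (div_le_one b0).2 (min_le_right _ _)
  have k1 : 8 * β * C ≤ M := by
    have a1 := (D_step μ f 0 c (c + t • e1)).trans (add_le_add le_rfl (seg_bd μ f fun x hx =>
      (hr _ (by
        simp only [mem_ball_iff_norm, add_sub_cancel_left, norm_smul, e1, PiLp.norm_single,
          norm_one, Real.norm_eq_abs, abs_of_pos t0, abs_of_pos hx.1]
        nlinarith [hx.2])).1).2)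
    rw [hD, hD, ← ENNReal.ofReal_add (Real.rpow_nonneg (gau_nn _) _) (by positivity),
      ENNReal.ofReal_le_ofReal_iff (add_nonneg (Real.rpow_nonneg (gau_nn _) _) (by positivity)),
      add_sub_cancel_left, map_smul_eq_mul, Real.norm_eq_abs, abs_of_pos t0] at a1
    have a2 : gau w c ^ β ≤ 1 := Real.rpow_le_one (norm_nonneg _) ((gau_le hw zero_le_one).2 fun i => by
      refine Fin.cases (by simp [c0, w]) (Fin.cases (by simp [c1, w, abs_of_pos b0]) fun i => ?_) i
      simpa [c2] using (hw _).le) hβ.le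
    have a3 : 1 + t / b ≤ gau w (c + t • e1) := by
      have := (gau_le hw (gau_nn _)).1 (le_refl (gau w (c + t • e1))) 1
      simp only [w, e1, PiLp.add_apply, c1, PiLp.smul_apply, PiLp.single_apply, if_true,
        smul_eq_mul, mul_one] at this
      rw [add_div' _ _ _ b0.ne', div_le_iff₀ b0, one_mul]; exact (le_abs_self _).trans this
    have tb : 0 < t / b := by positivity
    have a4 := Real.rpow_le_rpow (by positivity) a3 hβ.le
    have a5 : t / b / 2 ≤ Real.log (1 + t / b) := by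
      refine le_trans ?_ (Real.one_sub_inv_le_log_of_pos (by positivity))
      rw [le_sub_iff_add_le, ← le_sub_iff_add_le', inv_le_comm₀ (by positivity) (by linarith),
        inv_le_iff_one_le_mul₀ (by linarith)]
      nlinarith
    rw [Real.rpow_def_of_pos (by positivity)] at a4
    have a6 := Real.add_one_le_exp (Real.log (1 + t / b) * β)
    have a7 : t / b / 2 * β ≤ t * μ e1 * (2 * M) := by nlinarith
    rw [hb] at a7
    have : t * μ e1 * (2 * (8 * β * C)) ≤ t * μ e1 * (2 * M) := by convert a7 using 1; field_simp; ring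
    linarith [le_of_mul_le_mul_left this (by positivity)]
  have op : IsOpen (ball c r ∩ {a : E (n + 2) | a 1 < a 0 * b}) :=
    isOpen_ball.inter (isOpen_lt (by fun_prop) (by fun_prop))
  have zm : c - t • e1 ∈ ball c r ∩ {a : E (n + 2) | a 1 < a 0 * b} :=
    ⟨by simpa [norm_smul, e1, abs_of_pos t0] using t1, by simp [c0, c1, e1, t0]⟩
  obtain ⟨ρ, ρ0, hρ⟩ := Metric.isOpen_iff.1 op _ zm
  have z0 := μp (c - t • e1) fun h => by simpa [c0, e1] using congrArg (fun z : E (n + 2) => z 0) h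
  have near : ∀ a, μ (a - (c - t • e1)) ≤ 2 * min (ρ / (4 * C)) (μ (c - t • e1)) →
      a ∈ ball c r ∩ {a : E (n + 2) | a 1 < a 0 * b} := fun a ha => hρ (by
    have := (le_div_iff₀ (by positivity)).1 (min_le_left (ρ / (4 * C)) (μ (c - t • e1)))
    rw [mem_ball_iff_norm]; nlinarith [hC (a - (c - t • e1))])
  have ga : ∀ a ∈ ball c r ∩ {a : E (n + 2) | a 1 < a 0 * b}, gau w a = a 0 := fun a ha => by
    obtain ⟨-, -, p1, p2, p3⟩ := hr a ha.1
    refine le_antisymm ((gau_le hw (by linarith)).2 fun i => ?_) ?_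
    · refine Fin.cases (by simp [w, abs_of_pos (by linarith : 0 < a 0)])
        (Fin.cases (by simpa [w, abs_of_pos p2] using le_of_lt ha.2) fun i => ?_) i
      have : i.succ.succ ≠ 1 := fun h => by simpa using congrArg Fin.val h
      simp only [w, this, if_false]; linarith [p3 i]
    · simpa [w] using (le_abs_self _).trans ((gau_le hw (gau_nn _)).1 (le_refl (gau w a)) 0)
  refine bump μ (fun z => gau w z ^ β) (fun z => Real.rpow_nonneg (gau_nn _) _) hD _
    (lt_min (by positivity) z0) (η := 2 * β * C) (by positivity) (min_le_right _ _) (M / 2) (2 * M)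
    (fun a ha => (hr a (near a ha).1).1) fun a a' ha ha' => ?_
  have q1 := hL.dist_le_mul _ (hr a' (near a' ha').1).2.1 _ (hr a (near a ha).1).2.1
  have q2 := (PiLp.dist_apply_le a' a 0).trans ((dist_eq_norm a' a).trans_le (hC _))
  simp only [ga a (near a ha), ga a' (near a' ha')]
  rw [Real.coe_toNNReal _ (by positivity)] at q1
  simp only [Real.dist_eq] at q1 q2
  nlinarith [le_abs_self (a' 0 ^ β - a 0 ^ β), apply_nonneg μ (a' - a), mul_le_mul_of_nonneg_left q2 hβ.le]

end Pool.Agent.Results.MP_41ff67_pr.No
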